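import Pool.Agent.TH304.K289.Base

set_option autoImplicit false

open Filter Topology Set Metric unitInterval

namespace Pool.Agent.TH304.K289.J919

open Pool.Agent.H721R2 Pool.Agent.H789R2.AN Pool.Agent.H789R2.GP Pool.Agent.TH289.K
open Pool.Agent.TH304.K289

theorem lf_of_gps {X : Type*} [MetricSpace X] [CompactSpace X] {f : X ≃ₜ X} {N : ℕ} (hN : 1 ≤ N)
    {c : ℝ} (h : LP (iterHomeo f N) c) (hX : ULC X) (hG : GPS f) :
    ∀ a s, WS (iterHomeo f N) a s → Lf (iterHomeo f N) a s := by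
  set g := iterHomeo f N with hg
  intro a s has υ hυ
  obtain ⟨v, hv0, hv1⟩ := leaf_conn h hX a s has
  let α : C(I, X) := ⟨fun t => (v t).val, SM.val_continuous.comp v.continuous⟩
  let β : C(I, X) := ⟨fun t => (υ t).val, SM.val_continuous.comp υ.continuous⟩
  have hα0 : α 0 = a := by show (v 0).val = a; rw [hv0]
  have hα1 : α 1 = s := by show (v 1).val = s; rw [hv1]
  have hβ0 : β 0 = a := hυ
  have hα : StablePath f α := by
    rw [stablePath_iff]
    apply Con.of_iter hN
    intro ε hε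
    obtain ⟨n, hn⟩ := path_small h v hε
    exact ⟨n, fun m hm t => hn m hm t 0⟩
  have hβ : StablePath f.symm β := by
    rw [stablePath_iff]
    apply Con.of_iter hN
    rw [← it_symm]
    intro ε hε
    obtain ⟨n, hn⟩ := path_small h.symm υ hε
    exact ⟨n, fun m hm t => hn m hm t 0⟩
  obtain ⟨R, hR1, hR2, hR3⟩ := hG α β hα hβ (hα0.trans hβ0.symm)
  have hcon : Con g (fun t : I => R (0, t)) (fun t => R (1, t)) := by
    apply Con.to_iter hN
    intro ε hε
    have h1 : {p : X × X | dist p.1 p.2 < ε} ∈ 𝓝ˢ (diagonal X) :=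
      (diag_iff _).2 ⟨ε, hε, fun x y hxy => hxy⟩
    obtain ⟨n, hn⟩ := eventually_atTop.1 (hR3 _ h1)
    exact ⟨n, fun m hm t => ((hn m hm 1 t).1 : dist _ _ < ε).le⟩
  have hcon' : Con g.symm (fun _ : I => R (1, 0)) (fun t => R (1, t)) := by
    rw [hg, it_symm]
    apply Con.to_iter hN
    intro ε hε
    have h1 : {p : X × X | dist p.1 p.2 < ε} ∈ 𝓝ˢ (diagonal X) :=
      (diag_iff _).2 ⟨ε, hε, fun x y hxy => hxy⟩
    obtain ⟨n, hn⟩ := eventually_atTop.1 (hR3 _ h1)
    exact ⟨n, fun m hm t => ((hn m hm 1 t).2 : dist _ _ < ε).le⟩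
  let Γ : I → Pr g := fun t => ⟨R (0, t), R (1, t), hcon.toWS t⟩
  have hΓ : Continuous Γ := by
    rw [Pr.continuous_iff]
    refine ⟨?_, ?_, ?_⟩
    · refine υ.continuous.congr fun t => ?_
      apply SM.ext
      show (υ t).val = R (0, t)
      rw [hR2]; rfl
    · rw [Metric.continuous_iff']
      intro t ε hε
      have hc : Continuous (fun t : I => R ((1 : I), t)) := R.continuous.comp (by fun_prop)
      filter_upwards [hcon'.cont hc t (half_pos hε)] with r hr
      have h5 : dist ((Γ r).snd) ((Γ t).snd) ≤ ε / 2 :=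
        (SM.dist_le _ _ (half_pos hε).le).2 hr.symm'
      exact lt_of_le_of_lt h5 (half_lt_self hε)
    · intro t ε hε
      obtain ⟨n, hn⟩ := hcon ε hε
      exact ⟨n, Eventually.of_forall fun r k hk => hn k hk r⟩
  refine ⟨R (1, 1), ⟨Γ, hΓ⟩, ?_, rfl, fun t => ?_⟩
  · show R (1, 0) = s
    rw [hR1, hα1]
  · show R (0, t) = (υ t).val
    rw [hR2]; rfl

end Pool.Agent.TH304.K289.J919
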