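import Pool.Agent.TH304.K289.Base

set_option autoImplicit false
set_option linter.unusedSectionVars false

open Filter Topology Set Metric unitInterval

namespace Pool.Agent.TH304.K289.J920

open Pool.Agent.H721R2 Pool.Agent.H789R2.AN Pool.Agent.H789R2.GP Pool.Agent.TH289.K
open Pool.Agent.TH304.K289

variable {X : Type*} [MetricSpace X]

/-- the reflected quadrilateral structure -/
def QSsymm {g : X ≃ₜ X} {c : ℝ} (T : QS g c) : QS g.symm c where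
  Q a s u x := T.Q a u s x
  ex a s u hs hu := T.ex a u s hu hs
  unique a s u x x' h h' := T.unique a u s x x' h h'
  wS a s u x h := T.wU a u s x h
  wU a s u x h := T.wS a u s x h
  compU a s u x u' x' h h' := T.compS a u s x u' x' h h'
  compS a s u x s' x' h h' := T.compU a u s x s' x' h h'
  flipU a s u x h := T.flipS a u s x h
  flipS a s u x h := T.flipU a u s x h
  tiny := by
    obtain ⟨ε, hε, h⟩ := T.tiny
    exact ⟨ε, hε, fun a s u x h1 h2 h3 h4 => h a u s x h2 h1 h4 h3⟩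
  contS j ε hε := by
    obtain ⟨η, hη, h⟩ := T.contU j ε hε
    exact ⟨η, hη, fun a s u x h1 h2 h3 => h a u s x h1 h2 h3⟩
  contU j ε hε := by
    obtain ⟨η, hη, h⟩ := T.contS j ε hε
    exact ⟨η, hη, fun a s u x h1 h2 h3 => h a u s x h1 h2 h3⟩

theorem deg_u {g : X ≃ₜ X} {c : ℝ} (T : QS g c) {a s : X} (h : WS g a s) : T.Q a s a s := by
  obtain ⟨x, hx⟩ := T.ex a s a h (WS.refl _ a)
  exact T.compU _ _ _ _ _ _ hx (T.flipU _ _ _ _ hx)

theorem deg_s {g : X ≃ₜ X} {c : ℝ} (T : QS g c) {a u : X} (h : WS g.symm a u) : T.Q a a u u := by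
  obtain ⟨x, hx⟩ := T.ex a a u (WS.refl _ a) h
  exact T.compS _ _ _ _ _ _ hx (T.flipS _ _ _ _ hx)

/-- the data of a rectangle -/
structure Rec {g : X ≃ₜ X} {c₁ : ℝ} (T : QS g c₁) (a : X) (A B : I → X) (R : I → I → X) :
    Prop where
  cA : ∀ s₀, ∀ ε > 0, ∀ᶠ s in 𝓝 s₀, SR g ε (A s₀) (A s)
  cB : ∀ t₀, ∀ ε > 0, ∀ᶠ t in 𝓝 t₀, SR g.symm ε (B t₀) (B t)
  q : ∀ s t, T.Q a (A s) (B t) (R s t)

variable {g : X ≃ₜ X} {c₁ : ℝ} {T : QS g c₁} {a : X} {A B : I → X} {R : I → I → X}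

theorem Rec.symm (h : Rec T a A B R) : Rec (QSsymm T) a B A (fun t s => R s t) where
  cA := h.cB
  cB := h.cA
  q t s := h.q s t

theorem Rec.qS (h : Rec T a A B R) (s s' t : I) : T.Q (A s) (A s') (R s t) (R s' t) :=
  T.compS _ _ _ _ _ _ (T.flipS _ _ _ _ (h.q s t)) (h.q s' t)

theorem Rec.qU (h : Rec T a A B R) (s t t' : I) : T.Q (B t) (R s t) (B t') (R s t') :=
  T.compU _ _ _ _ _ _ (T.flipU _ _ _ _ (h.q s t)) (h.q s t')

theorem Rec.step1 (hc₁ : 0 < c₁) (h : Rec T a A B R) (s₀ t₀ : I) {ε : ℝ} (hε : 0 < ε) :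
    ∀ᶠ s in 𝓝 s₀, SR g ε (R s₀ t₀) (R s t₀) := by
  obtain ⟨j, hj⟩ := (T.wU _ _ _ _ (h.q s₀ t₀)).level12 hc₁
  obtain ⟨η, hη, H⟩ := T.contS j ε hε
  filter_upwards [h.cA s₀ η hη] with s hs
  exact H _ _ _ _ (h.qS s₀ s t₀) hs hj

theorem Rec.step2 (hc₁ : 0 < c₁) (h : Rec T a A B R) (s₀ t₀ : I) {ε : ℝ} (hε : 0 < ε) :
    ∀ᶠ p : I × I in 𝓝 (s₀, t₀), SR g.symm ε (R p.1 t₀) (R p.1 p.2) := by
  obtain ⟨j, hj⟩ := (T.wS _ _ _ _ (h.q s₀ t₀)).level12 (half_pos hc₁)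
  obtain ⟨η, hη, H⟩ := T.contU j ε hε
  have h1 : ∀ᶠ p : I × I in 𝓝 (s₀, t₀), SR g (c₁ / 2) (R s₀ t₀) (R p.1 t₀) :=
    (continuous_fst.tendsto' (s₀, t₀) s₀ rfl).eventually (h.step1 hc₁ s₀ t₀ (half_pos hc₁))
  have h2 : ∀ᶠ p : I × I in 𝓝 (s₀, t₀), SR g.symm η (B t₀) (B p.2) :=
    (continuous_snd.tendsto' (s₀, t₀) t₀ rfl).eventually (h.cB t₀ η hη)
  filter_upwards [h1, h2] with p hp1 hp2
  refine H _ _ _ _ (h.qU p.1 t₀ p.2) hp2 ?_
  exact (hj.tr12 (hp1.it12 j)).mono (by linarith)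

theorem Rec.cont (hc₁ : 0 < c₁) (h : Rec T a A B R) : Continuous fun p : I × I => R p.1 p.2 := by
  rw [Metric.continuous_iff']
  rintro ⟨s₀, t₀⟩ ε hε
  have h1 : ∀ᶠ p : I × I in 𝓝 (s₀, t₀), SR g (ε / 3) (R s₀ t₀) (R p.1 t₀) :=
    (continuous_fst.tendsto' (s₀, t₀) s₀ rfl).eventually (h.step1 hc₁ s₀ t₀ (by positivity))
  filter_upwards [h1, h.step2 hc₁ s₀ t₀ (ε := ε / 3) (by positivity)] with p hp1 hp2
  have a1 := hp1.dist12
  have a2 := hp2.dist12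
  have a3 := dist_triangle_left (R p.1 p.2) (R s₀ t₀) (R p.1 t₀)
  rw [dist_comm (R p.1 t₀) (R s₀ t₀)] at a3
  show dist (R p.1 p.2) (R s₀ t₀) < ε
  linarith

/-- iterates of a quadrilateral -/
theorem Q_iter {g : X ≃ₜ X} {c₁ : ℝ} {T : QS g c₁}
    (hiter : ∀ a s u x, T.Q a s u x → T.Q (g a) (g s) (g u) (g x)) (j : ℕ) {a s u x : X}
    (h : T.Q a s u x) : T.Q (g^[j] a) (g^[j] s) (g^[j] u) (g^[j] x) := by
  induction j with
  | zero => exact h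
  | succ j ih =>
    simp only [Function.iterate_succ_apply']
    exact hiter _ _ _ _ ih

/-- the contraction of thin strips -/
theorem level [CompactSpace X] {g : X ≃ₜ X} {c c₁ : ℝ} (h : LP g c) (T : QS g c₁)
    (hiter : ∀ a s u x, T.Q a s u x → T.Q (g a) (g s) (g u) (g x)) :
    ∃ κ > 0, ∀ j : ℕ, ∃ η > 0, ∀ w y x z, T.Q w y x z → SR g.symm η w x →
      SR g κ (g^[j] w) (g^[j] y) → SR g c (g^[j] x) (g^[j] z) := by
  obtain ⟨ε₂, hε₂, htiny⟩ := T.tiny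
  obtain ⟨δ, hδ, hlp⟩ := h.lp (min ε₂ c) (lt_min hε₂ h.c_pos)
  set κ := min ε₂ (δ / 3) with hκ
  have hκ0 : 0 < κ := lt_min hε₂ (by positivity)
  have hκ1 : κ ≤ ε₂ := min_le_left _ _
  have hκ2 : κ ≤ δ / 3 := min_le_right _ _
  refine ⟨κ, hκ0, fun j => ?_⟩
  have hcm : ∀ x, g (g.symm x) = g.symm (g x) := fun x => by
    rw [g.symm_apply_apply, g.apply_symm_apply]
  obtain ⟨η, hη, H⟩ := map_SM_iter (g := g.symm) (φ := g) hcm j κ hκ0
  refine ⟨η, hη, fun w y x z hQ hwx hwy => ?_⟩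
  have hQj := Q_iter hiter j hQ
  have h1 := H _ _ hwx
  have hd : dist (g^[j] x) (g^[j] y) < δ := by
    have a1 := h1.dist12
    have a2 := hwy.dist12
    have a3 := dist_triangle_left (g^[j] x) (g^[j] y) (g^[j] w)
    linarith
  obtain ⟨z', hz1, hz2⟩ := hlp _ _ hd
  have hQ' : T.Q (g^[j] w) (g^[j] y) (g^[j] x) z' := htiny _ _ _ _ (hwy.mono hκ1) (h1.mono hκ1)
    (hz1.mono (min_le_left _ _)) (hz2.mono (min_le_left _ _))
  rw [T.unique _ _ _ _ _ hQj hQ']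
  exact hz1.mono (min_le_right _ _)

theorem Rec.step3 [CompactSpace X] {c : ℝ} (hL : LP g c) (hc₁ : 0 < c₁)
    (hiter : ∀ a s u x, T.Q a s u x → T.Q (g a) (g s) (g u) (g x)) (h : Rec T a A B R) :
    Con g (fun p : I × I => B p.2) (fun p => R p.1 p.2) := by
  obtain ⟨κ, hκ, hlev⟩ := level hL T hiter
  intro ε hε
  -- local statement
  have loc : ∀ p₀ : I × I, ∃ n₀ : ℕ, ∀ᶠ p : I × I in 𝓝 p₀, ∀ n ≥ n₀,
      dist (g^[n] (B p.2)) (g^[n] (R p.1 p.2)) ≤ ε := by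
    rintro ⟨s₀, t₀⟩
    obtain ⟨j, hj⟩ := (T.wS _ _ _ _ (h.q s₀ t₀)).level12 (half_pos hκ)
    obtain ⟨η, hη, H⟩ := hlev j
    obtain ⟨N, hN⟩ := qs_exists_pow hL.c_pos hε
    refine ⟨j + N, ?_⟩
    have h1 : ∀ᶠ p : I × I in 𝓝 (s₀, t₀), SR g (κ / 2) (R s₀ t₀) (R p.1 t₀) :=
      (continuous_fst.tendsto' (s₀, t₀) s₀ rfl).eventually (h.step1 hc₁ s₀ t₀ (half_pos hκ))
    have h2 : ∀ᶠ p : I × I in 𝓝 (s₀, t₀), SR g.symm η (B t₀) (B p.2) :=
      (continuous_snd.tendsto' (s₀, t₀) t₀ rfl).eventually (h.cB t₀ η hη)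
    filter_upwards [h1, h2] with p hp1 hp2 n hn
    have h3 : SR g κ (g^[j] (B t₀)) (g^[j] (R p.1 t₀)) :=
      (hj.tr12 (hp1.it12 j)).mono (by linarith)
    have h4 := H _ _ _ _ (h.qU p.1 t₀ p.2) hp2 h3
    have h5 := hL.cS _ _ h4 (n - j)
    rw [← Function.iterate_add_apply, ← Function.iterate_add_apply,
      Nat.sub_add_cancel (by omega)] at h5
    exact h5.trans (hN (n - j) (by omega)).le
  choose n₀ hn₀ using loc
  obtain ⟨F, hF⟩ := (isCompact_univ (X := I × I)).elim_nhds_subcover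
    (fun p₀ => {p : I × I | ∀ n ≥ n₀ p₀, dist (g^[n] (B p.2)) (g^[n] (R p.1 p.2)) ≤ ε})
    (fun p₀ _ => hn₀ p₀)
  refine ⟨F.sup n₀, fun n hn p => ?_⟩
  obtain ⟨p₀, hp₀, hp⟩ := Set.mem_iUnion₂.1 (hF.2 (Set.mem_univ p))
  exact hp n ((Finset.le_sup hp₀).trans hn)

theorem gps_of_qs {X : Type*} [MetricSpace X] [CompactSpace X] {f : X ≃ₜ X} {N : ℕ} (hN : 1 ≤ N)
    {c c₁ : ℝ} (h : LP (iterHomeo f N) c) (hc₁ : 0 < c₁) (T : QS (iterHomeo f N) c₁)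
    (hiter : ∀ a s u x, T.Q a s u x → T.Q (iterHomeo f N a) (iterHomeo f N s) (iterHomeo f N u)
      (iterHomeo f N x))
    (hiter' : ∀ a s u x, T.Q a s u x → T.Q ((iterHomeo f N).symm a) ((iterHomeo f N).symm s)
      ((iterHomeo f N).symm u) ((iterHomeo f N).symm x)) : GPS f := by
  intro α β hα hβ h0
  rw [stablePath_iff] at hα hβ
  have hA : Con (iterHomeo f N) (fun _ : I => α 0) (fun t => α t) := hα.to_iter hN
  have hB : Con (iterHomeo f N).symm (fun _ : I => β 0) (fun t => β t) := by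
    rw [it_symm]
    exact hβ.to_iter hN
  have hex : ∀ s t : I, ∃ x, T.Q (α 0) (α s) (β t) x := fun s t =>
    T.ex _ _ _ (hA.toWS s) (by rw [h0]; exact hB.toWS t)
  choose R hR using hex
  have hrec : Rec T (α 0) (fun s => α s) (fun t => β t) R :=
    { cA := fun s₀ ε hε => hA.cont α.continuous s₀ hε
      cB := fun t₀ ε hε => hB.cont β.continuous t₀ hε
      q := hR }
  have hR1 : ∀ s, R s 0 = α s := fun s => by
    have h1 := hR s 0
    rw [← h0] at h1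
    exact T.unique _ _ _ _ _ h1 (deg_u T (hA.toWS s))
  have hR2 : ∀ t, R 0 t = β t := fun t => by
    refine T.unique _ _ _ _ _ (hR 0 t) (deg_s T ?_)
    rw [h0]
    exact hB.toWS t
  have c1 : Con f (fun p : I × I => β p.2) (fun p => R p.1 p.2) :=
    (hrec.step3 h hc₁ hiter).of_iter hN
  have c2 : Con f.symm (fun p : I × I => α p.2) (fun p => R p.2 p.1) := by
    apply Con.of_iter hN
    rw [← it_symm]
    exact hrec.symm.step3 h.symm hc₁ (fun a s u x hQ => hiter' _ _ _ _ hQ)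
  refine ⟨⟨fun p => R p.1 p.2, hrec.cont hc₁⟩, hR1, hR2, ?_⟩
  intro 𝒰 h𝒰
  obtain ⟨ε, hε, h1⟩ := (diag_iff _).1 h𝒰
  obtain ⟨n1, hn1⟩ := c1 (ε / 2) (half_pos hε)
  obtain ⟨n2, hn2⟩ := c2 (ε / 2) (half_pos hε)
  filter_upwards [eventually_ge_atTop n1, eventually_ge_atTop n2] with n hm1 hm2 s t
  constructor
  · apply h1
    show dist (f^[n] (R 0 t)) (f^[n] (R s t)) < ε
    rw [hR2]
    exact lt_of_le_of_lt (hn1 n hm1 (s, t)) (half_lt_self hε)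
  · apply h1
    show dist (f.symm^[n] (R s 0)) (f.symm^[n] (R s t)) < ε
    rw [hR1]
    exact lt_of_le_of_lt (hn2 n hm2 (t, s)) (half_lt_self hε)

end Pool.Agent.TH304.K289.J920
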