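import Pool.Agent.H789R2.GP.CovA
import Pool.Agent.H789R2.GP.QSx
import Pool.Agent.H721R2.Build
import Pool.Agent.TH289.K.Def

set_option autoImplicit false
set_option linter.unusedSectionVars false

open Filter Topology Set Metric unitInterval

namespace Pool.Agent.TH304.K289

open Pool.Agent.H721R2 Pool.Agent.H789R2.AN Pool.Agent.H789R2.GP Pool.Agent.TH289.K

variable {X : Type*} [MetricSpace X]

theorem it_iter (f : X ≃ₜ X) (N k : ℕ) (x : X) : (iterHomeo f N)^[k] x = f^[N * k] x := by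
  rw [Function.iterate_mul]; rfl

theorem it_symm (f : X ≃ₜ X) (N : ℕ) : (iterHomeo f N).symm = iterHomeo f.symm N := by
  ext x; rfl

theorem it_symm_iter (f : X ≃ₜ X) (N k : ℕ) (x : X) :
    (iterHomeo f N).symm^[k] x = f.symm^[N * k] x := by
  rw [it_symm, it_iter]

/-- neighbourhoods of the diagonal -/
theorem diag_iff [CompactSpace X] (𝒰 : Set (X × X)) :
    𝒰 ∈ 𝓝ˢ (diagonal X) ↔ ∃ ε > 0, ∀ x y : X, dist x y < ε → (x, y) ∈ 𝒰 := by
  rw [nhdsSet_diagonal_eq_uniformity, Metric.mem_uniformity_dist]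

/-- uniform contraction of a family of displacements -/
def Con {A : Type*} (g : X ≃ₜ X) (x y : A → X) : Prop :=
  ∀ ε > 0, ∃ n₀ : ℕ, ∀ n ≥ n₀, ∀ i, dist (g^[n] (x i)) (g^[n] (y i)) ≤ ε

theorem Con.toWS {A : Type*} {g : X ≃ₜ X} {x y : A → X} (h : Con g x y) (i : A) :
    WS g (x i) (y i) := by
  unfold WS
  rw [Metric.tendsto_atTop]
  intro ε hε
  obtain ⟨n, hn⟩ := h (ε / 2) (half_pos hε)
  refine ⟨n, fun m hm => ?_⟩
  have h1 := hn m hm i
  rw [Real.dist_eq, sub_zero, abs_of_nonneg dist_nonneg]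
  linarith

theorem Con.of_iter [CompactSpace X] {A : Type*} {f : X ≃ₜ X} {N : ℕ} (hN : 1 ≤ N) {x y : A → X}
    (h : Con (iterHomeo f N) x y) : Con f x y := by
  intro ε hε
  obtain ⟨η, hη, h1⟩ := T1_unif f N hε
  obtain ⟨m, hm⟩ := h (η / 2) (half_pos hη)
  refine ⟨N * m, fun n hn i => ?_⟩
  have hnn : n = n % N + N * (n / N) := (Nat.mod_add_div n N).symm
  have h2 : m ≤ n / N := by
    rw [Nat.le_div_iff_mul_le (by omega)]
    rwa [Nat.mul_comm]
  have h3 := hm (n / N) h2 i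
  rw [it_iter, it_iter] at h3
  have h4 := h1 (n % N) (Nat.mod_lt _ (by omega)).le _ _ (lt_of_le_of_lt h3 (half_lt_self hη))
  rw [← Function.iterate_add_apply, ← Function.iterate_add_apply, ← hnn] at h4
  exact h4.le

theorem Con.to_iter {A : Type*} {f : X ≃ₜ X} {N : ℕ} (hN : 1 ≤ N) {x y : A → X}
    (h : Con f x y) : Con (iterHomeo f N) x y := by
  intro ε hε
  obtain ⟨m, hm⟩ := h ε hε
  refine ⟨m, fun n hn i => ?_⟩
  rw [it_iter, it_iter]
  exact hm _ (hn.trans (Nat.le_mul_of_pos_left n (by omega))) i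

theorem stablePath_iff [CompactSpace X] {f : X ≃ₜ X} {γ : C(I, X)} :
    StablePath f γ ↔ Con f (fun _ : I => γ 0) (fun t => γ t) := by
  constructor
  · intro h ε hε
    have h1 : {p : X × X | dist p.1 p.2 < ε} ∈ 𝓝ˢ (diagonal X) :=
      (diag_iff _).2 ⟨ε, hε, fun x y hxy => hxy⟩
    obtain ⟨n, hn⟩ := eventually_atTop.1 (h _ h1)
    exact ⟨n, fun m hm t => (hn m hm t : dist _ _ < ε).le⟩
  · intro h 𝒰 h𝒰
    obtain ⟨ε, hε, h1⟩ := (diag_iff _).1 h𝒰
    obtain ⟨n, hn⟩ := h (ε / 2) (half_pos hε)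
    filter_upwards [eventually_ge_atTop n] with m hm t
    exact h1 _ _ (lt_of_le_of_lt (hn m hm t) (half_lt_self hε))

/-- uniform contraction and continuity give continuity for the stable metric -/
theorem Con.cont [CompactSpace X] {A : Type*} [TopologicalSpace A] {g : X ≃ₜ X} {x : X}
    {y : A → X} (h : Con g (fun _ => x) y) (hy : Continuous y) (s₀ : A) {ε : ℝ} (hε : 0 < ε) :
    ∀ᶠ s in 𝓝 s₀, SR g ε (y s₀) (y s) := by
  obtain ⟨n, hn⟩ := h (ε / 2) (half_pos hε)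
  have hk : ∀ᶠ s in 𝓝 s₀, ∀ k ∈ Finset.range n, dist (g^[k] (y s)) (g^[k] (y s₀)) < ε := by
    rw [Filter.eventually_all_finset]
    intro k _
    have h6 : Continuous (fun s => g^[k] (y s)) := (g.continuous.iterate k).comp hy
    exact (Metric.continuous_iff'.1 h6) s₀ ε hε
  filter_upwards [hk] with s hs k
  rcases Nat.lt_or_ge k n with hkn | hkn
  · rw [dist_comm]
    exact (hs k (Finset.mem_range.2 hkn)).le
  · have a1 := hn k hkn s₀
    have a2 := hn k hkn s
    have a3 := dist_triangle_left (g^[k] (y s₀)) (g^[k] (y s)) (g^[k] x)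
    linarith

end Pool.Agent.TH304.K289
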